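import Mathlib
import Pool.Agent.W307.QF.Main

/-!
# All the moments of `2 ^ rank` of the twists `E^D(p)`, `p` prime, in short intervals are bounded

Let `E` be an elliptic curve over `ℚ` with all its points of order two rational and `D(t)` a product
of irreducible polynomials of degree one and two with integer coefficients, pairwise not
proportional, `D(0) ≠ 0` (for example `D(t) = t + 2`, that is, the twists by `p + 2`, or
`D(t) = t ^ 2 + 1`). For all `k`, `L` the sum of the `k`-th powers of `2 ^ rank E^D(p)` over the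
primes `p` of an interval `(N, N + M]` with `N ≤ M ^ L` is at most `C * M / log M`.
-/

namespace Pool.Agent.Results.MP_03e5d0_nt.TwistMomentsPrimes

open Finset Polynomial

/-- the curve `y² = x³ + A x + B` over `ℚ` -/
def E (A B : ℤ) : WeierstrassCurve ℚ := ⟨0, 0, 0, (A : ℚ), (B : ℚ)⟩

/-- the quadratic twist of `y² = x³ + A x + B` by `d`: the curve `y² = x³ + d² A x + d³ B` -/
def Tw (A B d : ℤ) : WeierstrassCurve ℚ := E (d ^ 2 * A) (d ^ 3 * B)

/-- `D(t) = ∏ i, P i (t)` -/
def D {m : ℕ} (P : Fin m → ℤ[X]) (t : ℤ) : ℤ := ∏ i, (P i).eval t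

/-- **Theorem.** Let `E : y² = x³ + A x + B` be an elliptic curve with
`x³ + A x + B = (x - e₁) (x - e₂) (x - e₃)`, all the `e_i` integers, and `D(t)` the product of the
polynomials `P_i` with integer coefficients, of degree one or two, irreducible over `ℚ`, pairwise
not proportional and with `P_i(0) ≠ 0`. Then for all `k` and `L` there is `C` such that for all
natural numbers `N` and `M ≥ 2` with `N ≤ M ^ L` the sum of `(2 ^ rank E^D(p) (ℚ)) ^ k` over the
primes `p` with `N < p ≤ N + M`, `D(p) ≠ 0`, is at most `C * M / log M`. -/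
theorem result (A B e₁ e₂ e₃ : ℤ) (hE : 4 * A ^ 3 + 27 * B ^ 2 ≠ 0)
    (he : ∀ x : ℤ, x ^ 3 + A * x + B = (x - e₁) * (x - e₂) * (x - e₃))
    (m : ℕ) (P : Fin m → ℤ[X]) (hdeg : ∀ i, (P i).natDegree = 1 ∨ (P i).natDegree = 2)
    (hirr : ∀ i, Irreducible ((P i).map (Int.castRingHom ℚ)))
    (hP : ∀ i j, i ≠ j →
      ¬ Associated ((P i).map (Int.castRingHom ℚ)) ((P j).map (Int.castRingHom ℚ)))
    (h0 : ∀ i, (P i).eval 0 ≠ 0) (k L : ℕ) :
    ∃ C : ℝ, ∀ N M : ℕ, 2 ≤ M → N ≤ M ^ L →
      ∑ p ∈ (Ioc N (N + M)).filter (fun p : ℕ => p.Prime ∧ D P (p : ℤ) ≠ 0),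
        ((2 : ℝ) ^ Module.finrank ℤ (Tw A B (D P (p : ℤ))).toAffine.Point) ^ k ≤
          C * (M / Real.log M) :=
  Pool.Agent.W307.QF.finB_of Pool.Agent.W307.QF.avb Pool.Agent.W307.QF.nzl hE he P hdeg hirr hP h0
    k L

end Pool.Agent.Results.MP_03e5d0_nt.TwistMomentsPrimes
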